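import Pool.Agent.helper52.ED.Spec

set_option autoImplicit false

open Complex Metric Set Filter Topology MeasureTheory
open Pool.Agent.helper98.ILF Pool.Agent.helper16.Multibrot HY

noncomputable section

namespace ED

theorem GEO_aux (η A : ℝ) (κ : ℕ → ℝ) (hη : 0 < η) (N : ℕ) : ∀ ι : Finset ℕ, ι.card = N → (∀ i ∈ ι, A ≤ κ i) →
    (∀ i ∈ ι, ∀ k ∈ ι, i < k → (1 + η) * κ i ≤ κ k) → ∀ m ∈ ι, (∀ i ∈ ι, i ≤ m) →
    A * (1 + η) ^ (ι.card - 1) ≤ κ m := by
  induction N with
  | zero =>
    intro ι hc _ _ m hm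
    rw [Finset.card_eq_zero] at hc
    subst hc
    simp at hm
  | succ N ih =>
    intro ι hc hA hk m hm hmax
    have hce : (ι.erase m).card = N := by
      rw [Finset.card_erase_of_mem hm, hc]; rfl
    rcases Finset.eq_empty_or_nonempty (ι.erase m) with he | hne
    · have : N = 0 := by rw [← hce, he]; rfl
      subst this
      rw [hc]
      simpa using hA m hm
    · set m' := (ι.erase m).max' hne with hm'
      have hm'mem : m' ∈ ι.erase m := Finset.max'_mem _ _
      have h1 := ih (ι.erase m) hce (fun i hi => hA i (Finset.mem_of_mem_erase hi))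
        (fun i hi k hk' hik => hk i (Finset.mem_of_mem_erase hi) k (Finset.mem_of_mem_erase hk') hik)
        m' hm'mem (fun i hi => Finset.le_max' _ i hi)
      have hm'ι : m' ∈ ι := Finset.mem_of_mem_erase hm'mem
      have hne' : m' ≠ m := Finset.ne_of_mem_erase hm'mem
      have hlt : m' < m := lt_of_le_of_ne (hmax m' hm'ι) hne'
      have h2 := hk m' hm'ι m hm hlt
      have hN : 1 ≤ N := by
        rw [← hce]; exact Finset.card_pos.mpr hne
      rw [hce] at h1
      rw [hc]
      have h3 : N + 1 - 1 = (N - 1) + 1 := by omega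
      rw [h3, pow_succ]
      calc A * ((1 + η) ^ (N - 1) * (1 + η)) = (1 + η) * (A * (1 + η) ^ (N - 1)) := by ring
        _ ≤ (1 + η) * κ m' := by
          apply mul_le_mul_of_nonneg_left h1; linarith
        _ ≤ κ m := h2

theorem GEO : GEO_stmt := by
  intro η A B ι κ hη hη1 hA hAB hb hk
  have hlog0 : 0 ≤ Real.log (B / A) := by
    apply Real.log_nonneg
    rw [le_div_iff₀ hA]; linarith
  rcases Finset.eq_empty_or_nonempty ι with he | hne
  · subst he
    simp only [Finset.card_empty, Nat.cast_zero]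
    positivity
  · have h1 := GEO_aux η A κ hη ι.card ι rfl (fun i hi => (hb i hi).1) hk (ι.max' hne) (Finset.max'_mem _ _)
      (fun i hi => Finset.le_max' _ i hi)
    have h2 : A * (1 + η) ^ (ι.card - 1) ≤ B := h1.trans (hb _ (Finset.max'_mem _ _)).2
    have h3 : (1 + η) ^ (ι.card - 1) ≤ B / A := by
      rw [le_div_iff₀ hA]; linarith
    have h4 : ((ι.card - 1 : ℕ) : ℝ) * Real.log (1 + η) ≤ Real.log (B / A) := by
      rw [← Real.log_pow]
      apply Real.log_le_log _ h3
      positivity
    have h5 : η / 2 ≤ Real.log (1 + η) := by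
      have h6 := Real.one_sub_inv_le_log_of_pos (show (0 : ℝ) < 1 + η by linarith)
      have h7 : η / 2 ≤ 1 - (1 + η)⁻¹ := by
        have h8 : 1 - (1 + η)⁻¹ = η / (1 + η) := by
          field_simp
          ring
        rw [h8]
        apply div_le_div_of_nonneg_left hη.le (by linarith) (by linarith)
      linarith
    have h6 : ((ι.card - 1 : ℕ) : ℝ) * (η / 2) ≤ Real.log (B / A) :=
      (mul_le_mul_of_nonneg_left h5 (Nat.cast_nonneg _)).trans h4
    have hc : 1 ≤ ι.card := Finset.card_pos.mpr hne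
    rw [Nat.cast_sub hc, Nat.cast_one] at h6
    have h7 : (ι.card : ℝ) - 1 ≤ 2 * Real.log (B / A) / η := by
      rw [le_div_iff₀ hη]; linarith
    linarith

end ED
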