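import Pool.Agent.helper52.ED.SpecP

set_option autoImplicit false

open Complex Metric Set Filter Topology MeasureTheory
open Pool.Agent.helper98.ILF Pool.Agent.helper16.Multibrot HY
open DH (co Tow yv jj FA REL)

noncomputable section

namespace ED

/-- numerical part. -/
theorem PS_num (Cs Cv m₀ θ₁ g s : ℝ) (hCs : 0 < Cs) (hCv : 0 < Cv) (hm₀ : 0 < m₀) (hθ₁ : 0 < θ₁)
    (hθ₁' : θ₁ ≤ 1 / 6) (hg : 0 < g) (hg1 : g ≤ 1) (hs : 0 < s) (hs1 : s ≤ 1) :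
    1 + Cs / (s / 8 * g ^ (1 - θ₁)) * (1 + Real.log (1 / g)) + Cv / (m₀ * g ^ (1 / 6 : ℝ) * s) ^ 3 ≤
      (1 + 8 * Cs * (1 + 2 / θ₁) + Cv / m₀ ^ 3) * g ^ (-(1 - θ₁ / 2)) * (1 / s) ^ 3 := by
  have hs3 : 1 ≤ (1 / s) := by
    rw [le_div_iff₀ hs]; linarith
  have hs3' : 1 ≤ (1 / s) ^ 3 := one_le_pow₀ hs3
  have hs13 : 1 / s ≤ (1 / s) ^ 3 := by
    calc (1 / s) = (1 / s) ^ 1 := (pow_one _).symm
      _ ≤ (1 / s) ^ 3 := pow_le_pow_right₀ hs3 (by norm_num)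
  have hgθ : 1 ≤ g ^ (-(1 - θ₁ / 2)) := by
    apply Real.one_le_rpow_of_pos_of_le_one_of_nonpos hg hg1
    linarith
  have h1 : (1 : ℝ) ≤ g ^ (-(1 - θ₁ / 2)) * (1 / s) ^ 3 := by
    calc (1 : ℝ) = 1 * 1 := by ring
      _ ≤ _ := mul_le_mul hgθ hs3' (by norm_num) (by positivity)
  -- the second term
  have h2 : Cs / (s / 8 * g ^ (1 - θ₁)) * (1 + Real.log (1 / g)) ≤
      8 * Cs * (1 + 2 / θ₁) * (g ^ (-(1 - θ₁ / 2)) * (1 / s) ^ 3) := by
    have hl : Real.log (1 / g) ≤ (1 / g) ^ (θ₁ / 2) / (θ₁ / 2) :=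
      Real.log_le_rpow_div (by positivity) (by positivity)
    have hl0 : (1 / g) ^ (θ₁ / 2) = g ^ (-(θ₁ / 2)) := by
      rw [one_div, Real.inv_rpow hg.le, Real.rpow_neg hg.le]
    have hl1 : 1 ≤ g ^ (-(θ₁ / 2)) := by
      apply Real.one_le_rpow_of_pos_of_le_one_of_nonpos hg hg1
      linarith
    have hl2 : 1 + Real.log (1 / g) ≤ (1 + 2 / θ₁) * g ^ (-(θ₁ / 2)) := by
      rw [hl0] at hl
      have : g ^ (-(θ₁ / 2)) / (θ₁ / 2) = 2 / θ₁ * g ^ (-(θ₁ / 2)) := by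
        field_simp
      rw [this] at hl
      nlinarith
    have hq : Cs / (s / 8 * g ^ (1 - θ₁)) = 8 * Cs * (1 / s) * g ^ (-(1 - θ₁)) := by
      rw [Real.rpow_neg hg.le]
      have : g ^ (1 - θ₁) ≠ 0 := (Real.rpow_pos_of_pos hg _).ne'
      field_simp
    rw [hq]
    have hgp : g ^ (-(1 - θ₁)) * g ^ (-(θ₁ / 2)) = g ^ (-(1 - θ₁ / 2)) := by
      rw [← Real.rpow_add hg]
      congr 1
      ring
    calc 8 * Cs * (1 / s) * g ^ (-(1 - θ₁)) * (1 + Real.log (1 / g))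
        ≤ 8 * Cs * (1 / s) * g ^ (-(1 - θ₁)) * ((1 + 2 / θ₁) * g ^ (-(θ₁ / 2))) := by
          apply mul_le_mul_of_nonneg_left hl2
          positivity
      _ = 8 * Cs * (1 + 2 / θ₁) * ((g ^ (-(1 - θ₁)) * g ^ (-(θ₁ / 2))) * (1 / s)) := by ring
      _ = 8 * Cs * (1 + 2 / θ₁) * (g ^ (-(1 - θ₁ / 2)) * (1 / s)) := by rw [hgp]
      _ ≤ 8 * Cs * (1 + 2 / θ₁) * (g ^ (-(1 - θ₁ / 2)) * (1 / s) ^ 3) := by
          apply mul_le_mul_of_nonneg_left _ (by positivity)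
          apply mul_le_mul_of_nonneg_left hs13 (by positivity)
  have h3 : Cv / (m₀ * g ^ (1 / 6 : ℝ) * s) ^ 3 ≤ Cv / m₀ ^ 3 * (g ^ (-(1 - θ₁ / 2)) * (1 / s) ^ 3) := by
    have he : (g ^ (1 / 6 : ℝ)) ^ 3 = g ^ (1 / 2 : ℝ) := by
      rw [← Real.rpow_natCast, ← Real.rpow_mul hg.le]
      norm_num
    have hq : Cv / (m₀ * g ^ (1 / 6 : ℝ) * s) ^ 3 = Cv / m₀ ^ 3 * (g ^ (-(1 / 2) : ℝ) * (1 / s) ^ 3) := by
      rw [mul_pow, mul_pow, he, Real.rpow_neg hg.le]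
      have : g ^ (1 / 2 : ℝ) ≠ 0 := (Real.rpow_pos_of_pos hg _).ne'
      field_simp
    rw [hq]
    apply mul_le_mul_of_nonneg_left _ (by positivity)
    apply mul_le_mul_of_nonneg_right _ (by positivity)
    apply Real.rpow_le_rpow_of_exponent_ge hg hg1
    linarith
  calc 1 + Cs / (s / 8 * g ^ (1 - θ₁)) * (1 + Real.log (1 / g)) + Cv / (m₀ * g ^ (1 / 6 : ℝ) * s) ^ 3
      ≤ g ^ (-(1 - θ₁ / 2)) * (1 / s) ^ 3 + 8 * Cs * (1 + 2 / θ₁) * (g ^ (-(1 - θ₁ / 2)) * (1 / s) ^ 3) +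
        Cv / m₀ ^ 3 * (g ^ (-(1 - θ₁ / 2)) * (1 / s) ^ 3) := by
        linarith
    _ = _ := by ring

theorem PS (hPSS : PSS_stmt) (hPSA : PSA_stmt) (hPSV : PSV_stmt) : PS_stmt := by
  intro n r M hn hr hM hCL
  obtain ⟨Cs, hCs, hS⟩ := hPSS n r M hn hr hM hCL
  obtain ⟨Ca, e, hCa, he, hA⟩ := hPSA
  obtain ⟨Cv, hCv, hV⟩ := hPSV n r hn hr
  have he0 : (1 : ℝ) ≤ e := by exact_mod_cast he
  set θ₁ : ℝ := 1 / (6 * e) with hθ₁
  have hθ₁pos : 0 < θ₁ := by rw [hθ₁]; positivity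
  have hθ₁le : θ₁ ≤ 1 / 6 := by
    rw [hθ₁]
    apply div_le_div_of_nonneg_left (by norm_num) (by norm_num) (by linarith)
  set m₀ : ℝ := min 1 (1 / Ca) with hm₀
  have hm₀pos : 0 < m₀ := by
    rw [hm₀]; exact lt_min one_pos (by positivity)
  refine ⟨1 + 8 * Cs * (1 + 2 / θ₁) + Cv / m₀ ^ 3, 1 - θ₁ / 2, 3, by positivity, by linarith, by linarith, ?_⟩
  intro c hc hdis Φ b k p t hFA g s hg hg1 hs hs1
  set J : Finset ℕ := (Finset.range t).filter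
    (fun i => g ≤ 1 - ‖yv Φ n c (k + t - i) p i‖ ∧ s ≤ 1 - ‖yv Φ n c k 0 (t - i)‖) with hJ
  have hnum := PS_num Cs Cv m₀ θ₁ g s hCs hCv hm₀pos hθ₁pos hθ₁le hg hg1 hs hs1
  rcases Finset.eq_empty_or_nonempty J with hJe | hJne
  · rw [hJe]
    simp only [Finset.card_empty, Nat.cast_zero]
    positivity
  set T' : ℕ := J.min' hJne with hT'
  have hT'mem : T' ∈ J := Finset.min'_mem _ _
  have hT'J : T' < t ∧ g ≤ 1 - ‖yv Φ n c (k + t - T') p T'‖ ∧ s ≤ 1 - ‖yv Φ n c k 0 (t - T')‖ := by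
    have := hT'mem
    rw [hJ, Finset.mem_filter, Finset.mem_range] at this
    exact ⟨this.1, this.2.1, this.2.2⟩
  have hgp : 0 < g ^ (1 - θ₁) := Real.rpow_pos_of_pos hg _
  have hgp1 : g ^ (1 - θ₁) ≤ 1 := Real.rpow_le_one hg.le hg1 (by linarith)
  set σ : ℝ := s / 8 * g ^ (1 - θ₁) with hσ
  have hσpos : 0 < σ := by rw [hσ]; positivity
  have h8σ : 8 * σ ≤ s := by
    rw [hσ]
    nlinarith
  have hσ1 : σ ≤ 1 := by linarith
  -- members of J other than T'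
  have hmem : ∀ T ∈ J.erase T', T' < T ∧ T < t ∧ s ≤ 1 - ‖yv Φ n c k 0 (t - T)‖ := by
    intro T hT
    have h1 := Finset.mem_of_mem_erase hT
    have h2 := Finset.ne_of_mem_erase hT
    have h3 : T' ≤ T := Finset.min'_le _ _ h1
    have h4 := h1
    rw [hJ, Finset.mem_filter, Finset.mem_range] at h4
    exact ⟨lt_of_le_of_ne h3 (Ne.symm h2), h4.1, h4.2.2⟩
  set A : Finset ℕ := (J.erase T').filter (fun T => σ ≤ 1 - ‖yv Φ n c k p (T' + (t - T))‖) with hAdef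
  set B : Finset ℕ := (J.erase T').filter (fun T => ¬ σ ≤ 1 - ‖yv Φ n c k p (T' + (t - T))‖) with hBdef
  have hcardAB : A.card + B.card = (J.erase T').card := by
    rw [hAdef, hBdef]
    exact Finset.card_filter_add_card_filter_not (s := J.erase T')
      (fun T => σ ≤ 1 - ‖yv Φ n c k p (T' + (t - T))‖)
  have hcardJ : J.card = (J.erase T').card + 1 := by
    rw [Finset.card_erase_of_mem hT'mem]
    have : 0 < J.card := Finset.card_pos.mpr hJne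
    omega
  -- count of A
  have hAc : (A.card : ℝ) ≤ Cs / σ * (1 + Real.log (1 / g)) := by
    refine le_trans ?_ (hS c hc hdis Φ b k p t hFA g σ T' hg hg1 hσpos hσ1 hT'J.1 hT'J.2.1)
    have : A.card ≤ ((Finset.range t).filter (fun i => T' < i ∧ σ ≤ 1 - ‖yv Φ n c k p i‖)).card := by
      apply Finset.card_le_card_of_injOn (fun T => T' + (t - T))
      · intro T hT
        have hT1 : T ∈ A := hT
        rw [hAdef, Finset.mem_filter] at hT1
        obtain ⟨h1, h2, h3⟩ := hmem T hT1.1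
        show T' + (t - T) ∈ ((Finset.range t).filter (fun i => T' < i ∧ σ ≤ 1 - ‖yv Φ n c k p i‖))
        rw [Finset.mem_filter, Finset.mem_range]
        refine ⟨by omega, by omega, hT1.2⟩
      · intro T hT U hU hTU
        have hT1 : T ∈ A := hT
        have hU1 : U ∈ A := hU
        rw [hAdef, Finset.mem_filter] at hT1 hU1
        obtain ⟨h1, h2, h3⟩ := hmem T hT1.1
        obtain ⟨h1', h2', h3'⟩ := hmem U hU1.1
        have hTU' : T' + (t - T) = T' + (t - U) := hTU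
        omega
    exact_mod_cast this
  -- count of B
  set w : ℝ := m₀ * g ^ (1 / 6 : ℝ) with hw
  have hg6 : 0 < g ^ (1 / 6 : ℝ) := Real.rpow_pos_of_pos hg _
  have hg61 : g ^ (1 / 6 : ℝ) ≤ 1 := Real.rpow_le_one hg.le hg1 (by norm_num)
  have hwpos : 0 < w := by rw [hw]; positivity
  have hm₀1 : m₀ ≤ 1 := min_le_left _ _
  have hw1 : w ≤ 1 := by
    rw [hw]
    nlinarith
  have hratio : g * s / (4 * σ) = 2 * g ^ θ₁ := by
    have h1 : g ^ (1 - θ₁) = g / g ^ θ₁ := by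
      rw [Real.rpow_sub hg, Real.rpow_one]
    have h2 : g ^ θ₁ ≠ 0 := (Real.rpow_pos_of_pos hg _).ne'
    rw [hσ, h1]
    field_simp
    ring
  have hpow : g ^ (1 / 6 : ℝ) ≤ (g * s / (4 * σ)) ^ e := by
    rw [hratio, mul_pow]
    have h1 : (g ^ θ₁) ^ e = g ^ (1 / 6 : ℝ) := by
      rw [← Real.rpow_natCast, ← Real.rpow_mul hg.le]
      congr 1
      rw [hθ₁]
      field_simp
    rw [h1]
    have h2 : (1 : ℝ) ≤ 2 ^ e := one_le_pow₀ (by norm_num)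
    nlinarith
  have hBc : (B.card : ℝ) ≤ Cv / (w * s) ^ 3 := by
    refine le_trans ?_ (hV c hc hdis Φ b hFA.tow k (t - T') w s hwpos hw1 hs hs1)
    have : B.card ≤ ((Finset.range (t - T' + 1)).filter
        (fun u => w ≤ hd (chg Φ n c k (t - T') 0 u) 0 ∧ s ≤ 1 - ‖yv Φ n c k 0 u‖)).card := by
      apply Finset.card_le_card_of_injOn (fun T => t - T)
      · intro T hT
        have hT1 : T ∈ B := hT
        rw [hBdef, Finset.mem_filter] at hT1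
        obtain ⟨h1, h2, h3⟩ := hmem T hT1.1
        have hlt : 1 - ‖yv Φ n c k p (T' + (t - T))‖ ≤ σ := (not_le.mp hT1.2).le
        have hA' := hA n c Φ b M k p t hFA T' T g s σ h1 h2 hg hs hσpos h8σ hT'J.2.1 h3 hlt
        show t - T ∈ ((Finset.range (t - T' + 1)).filter
          (fun u => w ≤ hd (chg Φ n c k (t - T') 0 u) 0 ∧ s ≤ 1 - ‖yv Φ n c k 0 u‖))
        rw [Finset.mem_filter, Finset.mem_range]
        refine ⟨by omega, ?_, h3⟩
        have h4 : g ^ (1 / 6 : ℝ) ≤ Ca * hd (chg Φ n c k (t - T') 0 (t - T)) 0 := hpow.trans hA'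
        have h5 : m₀ ≤ 1 / Ca := min_le_right _ _
        calc w = m₀ * g ^ (1 / 6 : ℝ) := hw
          _ ≤ 1 / Ca * g ^ (1 / 6 : ℝ) := mul_le_mul_of_nonneg_right h5 hg6.le
          _ ≤ 1 / Ca * (Ca * hd (chg Φ n c k (t - T') 0 (t - T)) 0) := by
              apply mul_le_mul_of_nonneg_left h4; positivity
          _ = hd (chg Φ n c k (t - T') 0 (t - T)) 0 := by
              field_simp
      · intro T hT U hU hTU
        have hT1 : T ∈ B := hT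
        have hU1 : U ∈ B := hU
        rw [hBdef, Finset.mem_filter] at hT1 hU1
        obtain ⟨h1, h2, h3⟩ := hmem T hT1.1
        obtain ⟨h1', h2', h3'⟩ := hmem U hU1.1
        have hTU' : t - T = t - U := hTU
        omega
    exact_mod_cast this
  have hJc : (J.card : ℝ) = (A.card : ℝ) + B.card + 1 := by
    rw [hcardJ, ← hcardAB]
    push_cast
    ring
  rw [hJc]
  calc (A.card : ℝ) + B.card + 1 ≤ Cs / σ * (1 + Real.log (1 / g)) + Cv / (w * s) ^ 3 + 1 := by linarith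
    _ = 1 + Cs / (s / 8 * g ^ (1 - θ₁)) * (1 + Real.log (1 / g)) + Cv / (m₀ * g ^ (1 / 6 : ℝ) * s) ^ 3 := by
        rw [hσ, hw]; ring
    _ ≤ _ := hnum

end ED
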